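import Mathlib
import Pool.Agent.N176.SH.All
import Pool.Agent.H447R2.ML.Spec
import Pool.Agent.H473R4.Count

set_option autoImplicit false

/-!
# Generalized Wagstaff numbers: windows of any length, all bases at once

For an integer `b ≥ 2`, a real `β > 0` and a prime `p` let `W b β p` be the `p`-rough part (the
product, with multiplicity, of the prime factors larger than `p`) of the least integer `≥ β * b ^ p`.
For `β = 1 / (b + 1)` this is the generalized Wagstaff number `(b ^ p + 1) / (b + 1)` itself, for every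
odd prime `p` that does not divide `b + 1`.

According to the Poisson model behind the conjecture the exponents `p` with `W b β p` prime form, on
the scale `log p`, a Poisson process of intensity `κ b = e ^ γ / log b`.  For such a process the
number of points in `(log n, log n']` differs from its mean `κ b * log (n' / n)` by
`O (sqrt (log (n' / n) log log n') + log log n')`, for all windows at once, and for the windows
starting at the origin by `O (sqrt (log n log log log n))` (law of the iterated logarithm).  We prove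
these bounds for almost every `β > 0`, in all bases `b ≥ 2` at once, for all windows `(n, n']` at once,
of whatever length, and for the whole counting function; and the same for the exponents in an
arbitrary set `S` of primes of infinite weight `∑ log p / p`.

Authors: helper176 (plan, exponential moments, dyadic blocks, assembly), helper441 (sieve for a set of
exponents, windows), helper34 (sieve for shifted digits), helper286 (sum over the last digits),
helper833 (minimal exponents), helper897 (smooth parts), helper933 (second moment), helper607 (good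
cells), helper835 (law of the iterated logarithm), and the authors of the unshifted case (helpers 455,
490, 645, 618, 644, 75, 136, 123, 545, 697, 615, 348, 221).
-/

namespace Pool.Agent.Results.MP_ce8d0c_nt.WindowsEveryBase

open Filter Topology MeasureTheory

/-- The product, with multiplicity, of the prime factors of `m` that are larger than `p`. -/
def roughPart (p m : ℕ) : ℕ := (m.primeFactorsList.filter (fun r => p < r)).prod

/-- The `p`-rough part of the least integer `≥ β * b ^ p`. -/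
noncomputable def W (b : ℕ) (β : ℝ) (p : ℕ) : ℕ := roughPart p ⌈β * (b : ℝ) ^ p⌉₊

open Classical in
/-- The number of primes `p ≤ n` in the set `S` for which `W b β p` is prime. -/
noncomputable def M (b : ℕ) (S : Set ℕ) (β : ℝ) (n : ℕ) : ℕ :=
  ((Finset.range (n + 1)).filter (fun p => p.Prime ∧ p ∈ S ∧ (W b β p).Prime)).card

open Classical in
/-- The sum of `log p / p` over the primes `p ≤ n` in the set `S`. -/
noncomputable def V (S : Set ℕ) (n : ℕ) : ℝ :=
  ∑ p ∈ (Finset.range (n + 1)).filter (fun p => p.Prime ∧ p ∈ S), Real.log p / p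

/-- The constant of the law, `e ^ γ / log b`. -/
noncomputable def κ (b : ℕ) : ℝ := Real.exp Real.eulerMascheroniConstant / Real.log b

/-- The special values. -/
lemma special {b : ℕ} (hb : 2 ≤ b) {p : ℕ} (hp : p.Prime) (hp2 : p ≠ 2) (hpd : ¬ p ∣ b + 1) :
    W b (1 / ((b : ℝ) + 1)) p * (b + 1) = b ^ p + 1 := by
  have hodd : Odd p := hp.odd_of_ne_two hp2
  obtain ⟨M, hM⟩ : b + 1 ∣ b ^ p + 1 := by
    have := hodd.nat_add_dvd_pow_add_pow b 1
    rwa [one_pow] at this
  have hMr : ((M : ℝ)) * (b + 1) = (b : ℝ) ^ p + 1 := by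
    have : ((b : ℝ) ^ p + 1) = (((b ^ p + 1 : ℕ)) : ℝ) := by push_cast; ring
    rw [this, hM]
    push_cast; ring
  have hb0 : (0 : ℝ) < (b : ℝ) + 1 := by positivity
  have hb2 : (2 : ℝ) ≤ b := by exact_mod_cast hb
  have hM0 : M ≠ 0 := by
    rintro rfl
    simp at hM
  have hfl : ⌈1 / ((b : ℝ) + 1) * (b : ℝ) ^ p⌉₊ = M := by
    rw [Nat.ceil_eq_iff hM0, Nat.cast_sub (Nat.one_le_iff_ne_zero.2 hM0), Nat.cast_one]
    have e : 1 / ((b : ℝ) + 1) * (b : ℝ) ^ p = M - 1 / ((b : ℝ) + 1) := by
      field_simp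
      linarith
    rw [e]
    have h1 : 1 / ((b : ℝ) + 1) < 1 := by
      rw [div_lt_one hb0]; linarith
    have h2 : 0 < 1 / ((b : ℝ) + 1) := by positivity
    constructor <;> linarith
  have hr := Pool.Agent.H447R2.ML.rough_quot (a := (b : ℤ)) (b := -1)
    (IsCoprime.neg_right isCoprime_one_right) (by omega) (by omega) hp
    (by
      intro h
      apply hpd
      have : ((p : ℕ) : ℤ) ∣ ((b + 1 : ℕ) : ℤ) := by push_cast; simpa using h
      exact_mod_cast this) (x := (M : ℝ)) (by
        push_cast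
        rw [hodd.neg_one_pow]
        have hne : (b : ℝ) - -1 ≠ 0 := by linarith
        field_simp
        linarith)
  rw [Nat.floor_natCast] at hr
  have hgeom : (∑ i ∈ Finset.range p, (b : ℤ) ^ i * (-1) ^ (p - 1 - i)) * ((b : ℤ) - -1) =
      (b : ℤ) ^ p - (-1) ^ p := (Commute.all (b : ℤ) (-1)).geom_sum₂_mul p
  rw [← hr, hodd.neg_one_pow] at hgeom
  unfold W
  rw [hfl]
  have h4 : ((roughPart p M : ℕ) : ℤ) * ((b : ℤ) + 1) = (b : ℤ) ^ p + 1 := by
    have h5 : (roughPart p M : ℤ) = (Pool.Agent.H305R2.roughPart p M : ℤ) := rfl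
    rw [h5]
    linarith
  exact_mod_cast h4

/-- the conditions for the shift `1` -/
lemma ok {b : ℕ} (hb : 2 ≤ b) : Pool.Agent.N176.SH.Ok b 64 (fun _ => 1) where
  hb := hb
  hA := le_rfl
  size := by
    intro p hp
    rw [abs_one, one_mul]
    exact pow_le_pow_right₀ (by exact_mod_cast (by omega : 1 ≤ b)) (by omega)
  deg := Or.inr (Or.inl fun _ => rfl)

/-- the integers are the shifted ones -/
lemma sh_eq {b : ℕ} (hb : 2 ≤ b) {β : ℝ} (hβ : 0 < β) (p : ℕ) :
    Pool.Agent.N176.SH.sh (fun _ => 1) p (Pool.Agent.N176.GP.NB b β p) = ⌈β * (b : ℝ) ^ p⌉₊ := by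
  unfold Pool.Agent.N176.SH.sh Pool.Agent.N176.GP.NB
  have hx : 0 < β * (b : ℝ) ^ p := by positivity
  have h1 : 1 ≤ ⌈β * (b : ℝ) ^ p⌉₊ := Nat.one_le_iff_ne_zero.2 (Nat.ceil_pos.2 hx).ne'
  show (((⌈β * (b : ℝ) ^ p⌉₊ - 1 : ℕ) : ℤ) + 1).toNat = ⌈β * (b : ℝ) ^ p⌉₊
  omega

lemma M_eq {b : ℕ} (hb : 2 ≤ b) (S : Set ℕ) {β : ℝ} (hβ : 0 < β) (n : ℕ) :
    Pool.Agent.N176.SH.MB (fun _ => 1) b S β n = M b S β n := by
  classical
  unfold Pool.Agent.N176.SH.MB M W
  simp only [sh_eq hb hβ]
  rfl

lemma set_iff {b : ℕ} (hb : 2 ≤ b) : {n : ℕ | Odd n ∧ ((b ^ n + 1) / (b + 1)).Prime}.Infinite ↔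
    Tendsto (M b Set.univ (1 / ((b : ℝ) + 1))) atTop atTop := by
  classical
  have h1 : {n : ℕ | Odd n ∧ ((b ^ n + 1) / (b + 1)).Prime}.Infinite ↔
      {p : ℕ | p.Prime ∧ (p ≠ 2 ∧ ((b ^ p + 1) / (b + 1)).Prime)}.Infinite := by
    have e : {n : ℕ | Odd n ∧ ((b ^ n + 1) / (b + 1)).Prime} =
        {p : ℕ | p.Prime ∧ (p ≠ 2 ∧ ((b ^ p + 1) / (b + 1)).Prime)} := by
      ext n
      constructor
      · rintro ⟨h1, h2⟩
        refine ⟨Pool.Agent.H473R4.wagstaff_prime_index hb h1 h2, ?_, h2⟩
        rintro rfl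
        exact absurd h1 (by decide)
      · rintro ⟨h1, h2, h3⟩
        exact ⟨h1.odd_of_ne_two h2, h3⟩
    rw [e]
  have h2 : M b Set.univ (1 / ((b : ℝ) + 1)) = fun n => ((Finset.range (n + 1)).filter
      (fun p => p.Prime ∧ (W b (1 / ((b : ℝ) + 1)) p).Prime)).card := by
    funext n
    unfold M
    congr 1
    ext p
    simp
  rw [h1, h2]
  refine Pool.Agent.H473R4.tendsto_iff (W b (1 / ((b : ℝ) + 1))) _ (b + 2) fun p hp hpb => ?_
  have hp2 : p ≠ 2 := by omega
  have hpd : ¬ p ∣ b + 1 := fun h => by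
    have := Nat.le_of_dvd (by omega) h
    omega
  have h2 : (b ^ p + 1) / (b + 1) = W b (1 / ((b : ℝ) + 1)) p := by
    rw [← special hb hp hp2 hpd, Nat.mul_div_cancel _ (by omega)]
  rw [h2]
  exact ⟨fun h => ⟨hp2, h⟩, fun h => h.2⟩

/-- The special values; the window law and the law of the iterated logarithm for all bases at once;
the same for the exponents in an arbitrary set of primes of infinite weight. -/
theorem result :
    (∀ b : ℕ, 2 ≤ b → ∀ p : ℕ, p.Prime → p ≠ 2 → ¬ p ∣ b + 1 →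
      W b (1 / ((b : ℝ) + 1)) p * (b + 1) = b ^ p + 1) ∧
    (∀ b : ℕ, 2 ≤ b → ({n : ℕ | Odd n ∧ ((b ^ n + 1) / (b + 1)).Prime}.Infinite ↔
      Tendsto (M b Set.univ (1 / ((b : ℝ) + 1))) atTop atTop)) ∧
    (∃ C : ℕ → ℝ, ∀ᵐ β : ℝ, 0 < β → ∀ b : ℕ, 2 ≤ b →
      (∀ᶠ n : ℕ in atTop, ∀ n' ≥ n,
        |((M b Set.univ β n' : ℝ) - M b Set.univ β n) - κ b * Real.log ((n' : ℝ) / n)| ≤
          C b * (√(Real.log ((n' : ℝ) / n) * Real.log (Real.log n')) + Real.log (Real.log n'))) ∧
      (∀ᶠ n : ℕ in atTop, |(M b Set.univ β n : ℝ) - κ b * Real.log n| ≤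
        C b * √(Real.log n * Real.log (Real.log (Real.log n))))) ∧
    (∃ C : ℕ → ℝ, ∀ S : Set ℕ, Tendsto (fun n => V S n) atTop atTop →
      ∀ᵐ β : ℝ, 0 < β → ∀ b : ℕ, 2 ≤ b →
      (∀ᶠ n : ℕ in atTop, ∀ n' ≥ n,
        |((M b S β n' : ℝ) - M b S β n) - κ b * (V S n' - V S n)| ≤
          C b * (√((V S n' - V S n) * Real.log (V S n')) + Real.log (V S n'))) ∧
      (∀ᶠ n : ℕ in atTop, |(M b S β n : ℝ) - κ b * V S n| ≤
        C b * √(V S n * Real.log (Real.log (V S n))))) := by
  classical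
  have eV : ∀ S n, Pool.Agent.N176.OW.VS S n = V S n := fun S n => rfl
  have ek : ∀ b, Pool.Agent.N176.OW.kap b = κ b := fun b => rfl
  refine ⟨fun b hb p hp hp2 hpd => special hb hp hp2 hpd, fun b hb => set_iff hb, ?_, ?_⟩
  · have key : ∀ b : ℕ, ∃ C : ℝ, 2 ≤ b → ∀ᵐ β : ℝ, 0 < β →
        (∀ᶠ n : ℕ in atTop, ∀ n' ≥ n,
          |((M b Set.univ β n' : ℝ) - M b Set.univ β n) - κ b * Real.log ((n' : ℝ) / n)| ≤
            C * (√(Real.log ((n' : ℝ) / n) * Real.log (Real.log n')) + Real.log (Real.log n'))) ∧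
        (∀ᶠ n : ℕ in atTop, |(M b Set.univ β n : ℝ) - κ b * Real.log n| ≤
          C * √(Real.log n * Real.log (Real.log (Real.log n)))) := by
      intro b
      by_cases hb : 2 ≤ b
      · obtain ⟨C1, hC1, w1⟩ := Pool.Agent.N176.SH.win_univ Pool.Agent.N176.SH.All.win' (ok hb)
        obtain ⟨C2, hC2, w2⟩ := Pool.Agent.N176.SH.lil_univ Pool.Agent.N176.SH.All.lil' (ok hb)
        refine ⟨max C1 C2, fun _ => ?_⟩
        filter_upwards [w1, w2] with β w1 w2 hβ
        simp only [M_eq hb Set.univ hβ, ek] at w1 w2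
        constructor
        · filter_upwards [w1 hβ, eventually_ge_atTop 16] with n hn hn16 n' hnn'
          refine (hn n' hnn').trans (mul_le_mul_of_nonneg_right (le_max_left _ _) ?_)
          have := Pool.Agent.N176.SH.loglog_nonneg hn16 hnn'
          positivity
        · filter_upwards [w2 hβ] with n hn
          exact hn.trans (mul_le_mul_of_nonneg_right (le_max_right _ _) (Real.sqrt_nonneg _))
      · exact ⟨0, fun h => absurd h hb⟩
    choose C hC using key
    refine ⟨C, ?_⟩
    have hC' : ∀ᵐ β : ℝ, ∀ b : ℕ, 2 ≤ b → 0 < β →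
        (∀ᶠ n : ℕ in atTop, ∀ n' ≥ n,
          |((M b Set.univ β n' : ℝ) - M b Set.univ β n) - κ b * Real.log ((n' : ℝ) / n)| ≤
            C b * (√(Real.log ((n' : ℝ) / n) * Real.log (Real.log n')) + Real.log (Real.log n'))) ∧
        (∀ᶠ n : ℕ in atTop, |(M b Set.univ β n : ℝ) - κ b * Real.log n| ≤
          C b * √(Real.log n * Real.log (Real.log (Real.log n)))) := by
      rw [ae_all_iff]
      intro b
      rw [ae_all_iff]
      intro hb
      exact hC b hb
    filter_upwards [hC'] with β h hβ b hb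
    exact h b hb hβ
  · have key : ∀ b : ℕ, ∃ C : ℝ, 2 ≤ b → ∀ S : Set ℕ, Tendsto (fun n => V S n) atTop atTop →
        ∀ᵐ β : ℝ, 0 < β →
        (∀ᶠ n : ℕ in atTop, ∀ n' ≥ n,
          |((M b S β n' : ℝ) - M b S β n) - κ b * (V S n' - V S n)| ≤
            C * (√((V S n' - V S n) * Real.log (V S n')) + Real.log (V S n'))) ∧
        (∀ᶠ n : ℕ in atTop, |(M b S β n : ℝ) - κ b * V S n| ≤
          C * √(V S n * Real.log (Real.log (V S n)))) := by
      intro b
      by_cases hb : 2 ≤ b
      · obtain ⟨C1, hC1, w1⟩ := Pool.Agent.N176.SH.All.win' b 64 _ (ok hb)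
        obtain ⟨C2, hC2, w2⟩ := Pool.Agent.N176.SH.All.lil' b 64 _ (ok hb)
        refine ⟨max C1 C2, fun _ S hS => ?_⟩
        simp only [eV] at w1 w2
        filter_upwards [w1 S hS, w2 S hS] with β w1 w2 hβ
        simp only [M_eq hb S hβ, ek] at w1 w2
        constructor
        · filter_upwards [w1 hβ, hS.eventually_ge_atTop 1] with n hn hn1 n' hnn'
          refine (hn n' hnn').trans (mul_le_mul_of_nonneg_right (le_max_left _ _) ?_)
          have h3 : V S n ≤ V S n' := Pool.Agent.N176.OW.VS_mono S hnn'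
          have := Real.log_nonneg (hn1.trans h3)
          positivity
        · filter_upwards [w2 hβ] with n hn
          exact hn.trans (mul_le_mul_of_nonneg_right (le_max_right _ _) (Real.sqrt_nonneg _))
      · exact ⟨0, fun h => absurd h hb⟩
    choose C hC using key
    refine ⟨C, fun S hS => ?_⟩
    have hC' : ∀ᵐ β : ℝ, ∀ b : ℕ, 2 ≤ b → 0 < β →
        (∀ᶠ n : ℕ in atTop, ∀ n' ≥ n,
          |((M b S β n' : ℝ) - M b S β n) - κ b * (V S n' - V S n)| ≤
            C b * (√((V S n' - V S n) * Real.log (V S n')) + Real.log (V S n'))) ∧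
        (∀ᶠ n : ℕ in atTop, |(M b S β n : ℝ) - κ b * V S n| ≤
          C b * √(V S n * Real.log (Real.log (V S n)))) := by
      rw [ae_all_iff]
      intro b
      rw [ae_all_iff]
      intro hb
      exact hC b hb S hS
    filter_upwards [hC'] with β h hβ b hb
    exact h b hb hβ

end Pool.Agent.Results.MP_ce8d0c_nt.WindowsEveryBase
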